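import Pool.Agent.H655.CM.Coding
import Pool.Agent.H655.SB.Conn
import Pool.Agent.H655.GS.Conn
import Pool.Agent.H655.GM.Red

/-!
MP_70674c_lc, Q1: for every `n ≥ 2`, homeomorphism of connected topological `n`-manifolds with
boundary is Borel reducible to homeomorphism of connected topological `n`-manifolds without boundary.
-/

set_option autoImplicit false

open Set Filter Topology

namespace Pool.Agent.Results.MP_70674c_lc.TopBoundary

open Pool.Agent.H655

/-! ### Manifolds without boundary -/

/-- The space of codes of connected topological `n`-manifolds: a code is a sequence of open subsets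
`V i i` of `ℝⁿ` together with continuous gluing maps `φ i j` from the open subset `V i j` of `V i i`
onto the open subset `V j i` of `V j j`, satisfying the cocycle conditions and the Hausdorff
condition; `c.Pts` is the manifold glued from these data, and it has to be connected. -/
def ConnCode (n : ℕ) : Type :=
  {c : CM.Code (EuclideanSpace ℝ (Fin n)) // ConnectedSpace c.Pts}

/-- The Borel structure of the space of codes: it is generated by the conditions `S ⊆ V i j`, for `S`
compact, and `φ i j x ∈ B`, for `x` a point and `B` a Borel set. -/
noncomputable instance connBorel (n : ℕ) : MeasurableSpace (ConnCode n) :=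
  MeasurableSpace.comap Subtype.val
    (CM.measC : MeasurableSpace (CM.Code (EuclideanSpace ℝ (Fin n))))

/-- The coded manifold. -/
abbrev Coded (n : ℕ) (c : ConnCode n) : Type := CM.Code.Pts c.1

/-- The coded manifolds are homeomorphic. -/
def Homeomorphic (n : ℕ) (c c' : ConnCode n) : Prop :=
  Nonempty (Coded n c ≃ₜ Coded n c')

/-- The coded space is a connected Hausdorff second countable topological `n`-manifold. -/
def GluesToManifold (n : ℕ) (c : ConnCode n) : Prop :=
  T2Space (Coded n c) ∧ SecondCountableTopology (Coded n c) ∧ ConnectedSpace (Coded n c) ∧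
    Nonempty (ChartedSpace (EuclideanSpace ℝ (Fin n)) (Coded n c))

/-- The space `N` is homeomorphic to a coded manifold. -/
def HasCode (n : ℕ) (N : Type) [TopologicalSpace N] : Prop :=
  ∃ c : ConnCode n, Nonempty (N ≃ₜ Coded n c)

/-! ### Manifolds with boundary -/

/-- The space of codes of connected topological `n`-manifolds with boundary: a code is a sequence of
open subsets `V i i` of the closed half-space `{x ∈ ℝⁿ | 0 ≤ x 0}` together with continuous gluing
maps `φ i j` from the open subset `V i j` of `V i i` onto the open subset `V j i` of `V j j`,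
satisfying the cocycle conditions and the Hausdorff condition; `c.Pts` is the manifold with boundary
glued from these data, and it has to be connected. -/
def BCode (n : ℕ) [NeZero n] : Type :=
  {c : GM.Code (EuclideanHalfSpace n) // ConnectedSpace c.Pts}

/-- The Borel structure of the space of codes: it is generated by the conditions `S ⊆ V i j`, for `S`
compact, and `φ i j x ∈ B`, for `x` a point and `B` a Borel set. -/
noncomputable instance bBorel (n : ℕ) [NeZero n] : MeasurableSpace (BCode n) :=
  MeasurableSpace.comap Subtype.val
    (GM.measC : MeasurableSpace (GM.Code (EuclideanHalfSpace n)))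

/-- The coded manifold with boundary. -/
abbrev BCoded (n : ℕ) [NeZero n] (c : BCode n) : Type := GM.Code.Pts c.1

/-- The coded manifolds with boundary are homeomorphic. -/
def BHomeomorphic (n : ℕ) [NeZero n] (c c' : BCode n) : Prop :=
  Nonempty (BCoded n c ≃ₜ BCoded n c')

/-- The coded space is a connected Hausdorff second countable topological `n`-manifold with
boundary. -/
def BGluesToManifold (n : ℕ) [NeZero n] (c : BCode n) : Prop :=
  T2Space (BCoded n c) ∧ SecondCountableTopology (BCoded n c) ∧ ConnectedSpace (BCoded n c) ∧
    Nonempty (ChartedSpace (EuclideanHalfSpace n) (BCoded n c))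

/-- The space `N` is homeomorphic to a coded manifold with boundary. -/
def BHasCode (n : ℕ) [NeZero n] (N : Type) [TopologicalSpace N] : Prop :=
  ∃ c : BCode n, Nonempty (N ≃ₜ BCoded n c)

/-- Borel reducibility of the relation `R` on `A` to the relation `S` on `B`. -/
def BorelReducible {A B : Type} [MeasurableSpace A] [MeasurableSpace B] (R : A → A → Prop)
    (S : B → B → Prop) : Prop :=
  ∃ F : A → B, Measurable F ∧ ∀ x x', R x x' ↔ S (F x) (F x')

/-- For every `n` (with `n ≥ 1` in the case with boundary): the codes of connected topological
`n`-manifolds without (with) boundary form a standard Borel space, every code glues to such a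
manifold, and every such manifold is homeomorphic to a coded one. For every `n ≥ 2`, homeomorphism of
connected topological `n`-manifolds with boundary is Borel reducible to homeomorphism of connected
topological `n`-manifolds without boundary. More generally, for every `n ≥ 1` and every `m ≥ 2`,
homeomorphism of connected topological `n`-manifolds with boundary is Borel reducible to homeomorphism
of connected topological `m`-manifolds without boundary. -/
theorem result :
    (∀ n : ℕ, StandardBorelSpace (ConnCode n)) ∧
    (∀ (n : ℕ) (c : ConnCode n), GluesToManifold n c) ∧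
    (∀ (n : ℕ) (N : Type) [TopologicalSpace N] [ChartedSpace (EuclideanSpace ℝ (Fin n)) N]
      [T2Space N] [SecondCountableTopology N] [ConnectedSpace N], HasCode n N) ∧
    (∀ (n : ℕ) [NeZero n], StandardBorelSpace (BCode n)) ∧
    (∀ (n : ℕ) [NeZero n] (c : BCode n), BGluesToManifold n c) ∧
    (∀ (n : ℕ) [NeZero n] (N : Type) [TopologicalSpace N]
      [ChartedSpace (EuclideanHalfSpace n) N] [T2Space N] [SecondCountableTopology N]
      [ConnectedSpace N], BHasCode n N) ∧
    (∀ (n : ℕ) [NeZero n], 2 ≤ n → BorelReducible (BHomeomorphic n) (Homeomorphic n)) ∧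
    (∀ (n : ℕ) [NeZero n] (m : ℕ), 2 ≤ m →
      BorelReducible (BHomeomorphic n) (Homeomorphic m)) := by
  have key : ∀ (n : ℕ) [NeZero n] (m : ℕ), 2 ≤ m →
      BorelReducible (BHomeomorphic n) (Homeomorphic m) := by
    intro n _ m hm
    obtain ⟨F, hF, hc, hi⟩ := GM.reduction
      (E₁ := EuclideanHalfSpace n) (E := EuclideanSpace ℝ (Fin m))
      { e0 := EuclideanSpace.single ⟨0, by omega⟩ 1
        e1 := EuclideanSpace.single ⟨1, by omega⟩ 1
        h0 := by simp
        h1 := by simp
        h01 := by simp [EuclideanSpace.inner_single_left] }
    refine ⟨fun c => ⟨F c.1, hc c.1⟩, ?_, fun c c' => hi c.1 c'.1⟩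
    rintro A ⟨B, hB, rfl⟩
    exact ⟨F ⁻¹' B, hF hB, rfl⟩
  refine ⟨fun n => SB.sb_conn, fun n c => ⟨inferInstance, inferInstance, c.2, ⟨inferInstance⟩⟩, ?_,
    fun n _ => GS.sb_conn, fun n _ c => ⟨inferInstance, inferInstance, c.2, ⟨inferInstance⟩⟩, ?_,
    fun n _ hn => key n n hn, key⟩
  · intro n N _ _ _ _ _
    obtain ⟨c, ⟨f⟩⟩ := CM.exists_code (E := EuclideanSpace ℝ (Fin n)) (N := N)
    have hc : ConnectedSpace c.Pts := f.surjective.connectedSpace f.continuous
    exact ⟨⟨c, hc⟩, ⟨f⟩⟩
  · intro n _ N _ _ _ _ _
    obtain ⟨c, ⟨f⟩⟩ := GM.exists_code (E := EuclideanHalfSpace n) (N := N)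
    have hc : ConnectedSpace c.Pts := f.surjective.connectedSpace f.continuous
    exact ⟨⟨c, hc⟩, ⟨f⟩⟩

end Pool.Agent.Results.MP_70674c_lc.TopBoundary
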